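import Mathlib

namespace Pool.Agent.Results.MP_c86f36_co.Seven

open SimpleGraph

/-- The number of edges of `G` with both endpoints in `S`. -/
noncomputable def e {n : ℕ} (G : SimpleGraph (Fin n)) (S : Finset (Fin n)) : ℕ :=
  {p : Fin n × Fin n | p.1 < p.2 ∧ p.1 ∈ S ∧ p.2 ∈ S ∧ G.Adj p.1 p.2}.ncard

noncomputable def b (t n : ℕ) : ℕ :=
  sInf {m | ∃ S : Finset (Fin n), S.card = n / 2 ∧ e (turanGraph n (t - 1)) S = m}

theorem result : ¬ ∀ t ≥ 4, ∀ n, ∀ G : SimpleGraph (Fin n),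
    (∀ S : Finset (Fin n), S.card = n / 2 → b t n < e G S) → ¬ G.CliqueFree t := fun h => by
  refine h 4 le_rfl 7 (cycleGraph 7)ᶜ (fun S hS => ?_) (by
    unfold CliqueFree; decide +kernel)
  have : b 4 7 = 0 := Nat.sInf_eq_zero.2 (.inl ⟨{0, 3, 6}, rfl, by
    rw [e, Set.ncard_eq_zero, Set.eq_empty_iff_forall_notMem]
    simp only [Set.mem_ofPred_eq, turanGraph]
    decide +kernel⟩)
  rw [this, e, Set.ncard_pos]
  revert S
  simp only [Set.Nonempty, Set.mem_ofPred_eq]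
  decide +kernel

end Pool.Agent.Results.MP_c86f36_co.Seven
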